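import Pool.Agent.Helper6.TRI.Defs
import Mathlib.Analysis.AbsoluteValue.Equivalence

/-!
# TRI, block B3: approximation
-/

set_option autoImplicit false

namespace Pool.Agent.TRI

open Module Pool.Agent.SQ

section

variable {k E : Type*} [Field k] [Field E] [Algebra k E]

theorem rv_one24 {ω : E → ℝ} (h : RV k ω) : ω 1 = 0 := by
  have h1 := h.mul 1 1 one_ne_zero one_ne_zero
  rw [mul_one] at h1
  linarith

theorem rv_neg24 {ω : E → ℝ} (h : RV k ω) (x : E) (hx : x ≠ 0) : ω (-x) = ω x := by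
  have h1 := h.smul (-1) x (by simp) hx
  simpa using h1

theorem rv_pow24 {ω : E → ℝ} (h : RV k ω) (x : E) (hx : x ≠ 0) (n : ℕ) : ω (x ^ n) = n * ω x := by
  induction n with
  | zero => simp [rv_one24 h]
  | succ n ih =>
    rw [pow_succ, h.mul _ _ (pow_ne_zero n hx) hx, ih]
    push_cast
    ring

theorem rv_inv24 {ω : E → ℝ} (h : RV k ω) (x : E) (hx : x ≠ 0) : ω x⁻¹ = - ω x := by
  have h1 := h.mul x x⁻¹ hx (inv_ne_zero hx)
  rw [mul_inv_cancel₀ hx, rv_one24 h] at h1
  linarith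

theorem rv_lt24 {ω : E → ℝ} (h : RV k ω) (x y : E) (hx : x ≠ 0) (hy : y ≠ 0) (hxy : x + y ≠ 0) (hl : ω x < ω y) :
    ω (x + y) = ω x := by
  apply le_antisymm
  · by_contra hc
    push Not at hc
    have h1 := h.add (x + y) (-y) hxy (neg_ne_zero.mpr hy) (by simpa using hx)
    rw [add_neg_cancel_right, rv_neg24 h y hy] at h1
    exact absurd h1 (not_le.mpr (lt_min hc hl))
  · have h1 := h.add x y hx hy hxy
    rwa [min_eq_left hl.le] at h1

open Classical in
/-- the absolute value of a real valuation -/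
noncomputable def av24 {ω : E → ℝ} (h : RV k ω) : AbsoluteValue E ℝ where
  toFun x := if x = 0 then 0 else Real.exp (- ω x)
  map_mul' x y := by
    by_cases hx : x = 0
    · simp [hx]
    by_cases hy : y = 0
    · simp [hy]
    simp only [hx, hy, mul_eq_zero, or_self, if_false]
    rw [h.mul x y hx hy, ← Real.exp_add]
    congr 1
    ring
  nonneg' x := by
    by_cases hx : x = 0
    · simp [hx]
    · simp only [hx, if_false]
      exact (Real.exp_pos _).le
  eq_zero' x := by
    by_cases hx : x = 0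
    · simp [hx]
    · simp only [hx, if_false, iff_false]
      exact (Real.exp_pos _).ne'
  add_le' x y := by
    by_cases hx : x = 0
    · simp [hx]
    by_cases hy : y = 0
    · simp [hy]
    by_cases hxy : x + y = 0
    · simp only [hx, hy, hxy, if_true, if_false]
      positivity
    simp only [hx, hy, hxy, if_false]
    have h1 := h.add x y hx hy hxy
    rcases min_le_iff.mp h1 with h2 | h2
    · have h3 : Real.exp (- ω (x + y)) ≤ Real.exp (- ω x) := Real.exp_le_exp.mpr (by linarith)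
      have h4 := Real.exp_pos (- ω y)
      linarith
    · have h3 : Real.exp (- ω (x + y)) ≤ Real.exp (- ω y) := Real.exp_le_exp.mpr (by linarith)
      have h4 := Real.exp_pos (- ω x)
      linarith

theorem av24_apply {ω : E → ℝ} (h : RV k ω) (x : E) (hx : x ≠ 0) : av24 h x = Real.exp (- ω x) := by
  classical
  have h1 : av24 h x = if x = 0 then 0 else Real.exp (- ω x) := rfl
  rw [h1, if_neg hx]

theorem approx {ι : Type*} [Fintype ι] (ω : ι → E → ℝ) (hω : ∀ s, RV k (ω s)) (hnt : ∀ s, ¬ Triv (ω s))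
    (hne : ∀ s t, s ≠ t → ¬ Prp (ω s) (ω t)) (s : ι) (M : ℝ) :
    ∃ y : E, y ≠ 0 ∧ (y ≠ 1 → M ≤ ω s (y - 1)) ∧ ∀ t, t ≠ s → M ≤ ω t y := by
  classical
  have h1 : ∀ i, (av24 (hω i)).IsNontrivial := by
    intro i
    have h2 := hnt i
    unfold Triv at h2
    push Not at h2
    obtain ⟨x, hx, hx1⟩ := h2
    refine ⟨x, hx, ?_⟩
    rw [av24_apply (hω i) x hx]
    intro h3
    rw [Real.exp_eq_one_iff] at h3
    exact hx1 (by linarith)
  have h2 : Pairwise fun i j ↦ ¬(av24 (hω i)).IsEquiv (av24 (hω j)) := by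
    intro i j hij h3
    obtain ⟨c, hc, hcv⟩ := AbsoluteValue.isEquiv_iff_exists_rpow_eq.mp h3
    apply hne i j hij
    refine ⟨c, hc, fun x hx => ?_⟩
    have h4 : av24 (hω i) x ^ c = av24 (hω j) x := congrFun hcv x
    rw [av24_apply (hω i) x hx, av24_apply (hω j) x hx, ← Real.exp_mul] at h4
    have h5 := Real.exp_injective h4
    linarith
  obtain ⟨a, ha1, ha2⟩ := AbsoluteValue.exists_one_lt_lt_one_pi_of_not_isEquiv h1 h2 s
  have ha0 : a ≠ 0 := by
    rintro rfl
    rw [map_zero] at ha1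
    linarith
  have has : ω s a < 0 := by
    rw [av24_apply (hω s) a ha0] at ha1
    have := Real.one_lt_exp_iff.mp ha1
    linarith
  have hat : ∀ t, t ≠ s → 0 < ω t a := by
    intro t ht
    have h3 := ha2 t ht
    rw [av24_apply (hω t) a ha0] at h3
    have := Real.exp_lt_one_iff.mp h3
    linarith
  -- a large exponent
  have hex : ∃ n : ℕ, 0 < n ∧ ∀ t, M ≤ n * |ω t a| := by
    have hne0 : ∀ t, 0 < |ω t a| := by
      intro t
      by_cases ht : t = s
      · rw [ht]
        exact abs_pos.mpr has.ne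
      · exact abs_pos.mpr (hat t ht).ne'
    choose N hN using fun t => exists_nat_ge (M / |ω t a|)
    refine ⟨(∑ t, N t) + 1, Nat.succ_pos _, fun t => ?_⟩
    have h3 : (N t : ℝ) ≤ ((∑ t, N t) + 1 : ℕ) := by
      exact_mod_cast (Finset.single_le_sum (fun i _ => Nat.zero_le (N i)) (Finset.mem_univ t)).trans (Nat.le_succ _)
    have h4 := (div_le_iff₀ (hne0 t)).mp (hN t)
    exact h4.trans (mul_le_mul_of_nonneg_right h3 (hne0 t).le)
  obtain ⟨n, hn0, hn⟩ := hex
  have hnR : (0 : ℝ) < n := by exact_mod_cast hn0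
  have hb0 : a ^ n ≠ 0 := pow_ne_zero n ha0
  have hbs : ω s (a ^ n) = n * ω s a := rv_pow24 (hω s) a ha0 n
  have hbs' : ω s (a ^ n) < 0 := by
    rw [hbs]
    exact mul_neg_of_pos_of_neg hnR has
  have hb1 : a ^ n + 1 ≠ 0 := by
    intro h3
    have h4 : a ^ n = -1 := by linear_combination h3
    rw [h4, rv_neg24 (hω s) 1 one_ne_zero, rv_one24 (hω s)] at hbs'
    exact lt_irrefl _ hbs'
  refine ⟨a ^ n * (a ^ n + 1)⁻¹, mul_ne_zero hb0 (inv_ne_zero hb1), fun _ => ?_, fun t ht => ?_⟩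
  · have h3 : a ^ n * (a ^ n + 1)⁻¹ - 1 = -((a ^ n + 1)⁻¹) := by
      field_simp
      ring
    rw [h3, rv_neg24 (hω s) _ (inv_ne_zero hb1), rv_inv24 (hω s) _ hb1,
      rv_lt24 (hω s) (a ^ n) 1 hb0 one_ne_zero hb1 (by rw [rv_one24 (hω s)]; exact hbs'), hbs]
    have h4 := hn s
    rw [abs_of_neg has] at h4
    linarith
  · have h3 : ω t (a ^ n) = n * ω t a := rv_pow24 (hω t) a ha0 n
    have h4 : 0 < ω t (a ^ n) := by
      rw [h3]
      exact mul_pos hnR (hat t ht)
    have h5 : ω t (a ^ n + 1) = 0 := by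
      rw [add_comm, rv_lt24 (hω t) 1 (a ^ n) one_ne_zero hb0 (by rwa [add_comm]) (by rw [rv_one24 (hω t)]; exact h4),
        rv_one24 (hω t)]
    rw [(hω t).mul _ _ hb0 (inv_ne_zero hb1), rv_inv24 (hω t) _ hb1, h5, h3]
    have h6 := hn t
    rw [abs_of_pos (hat t ht)] at h6
    linarith

end

end Pool.Agent.TRI
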