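import Pool.Agent.Helper97.TRI.Generic

/-!
# TRI, block G2: the conormal space at a generic point
-/

set_option autoImplicit false

namespace Pool.Agent.TRI

open Module MvPolynomial

universe u

section

variable {k₀ : Type u} [Field k₀]

/-- the derivative of a polynomial in `X c` with coefficients which do not contain `X j` -/
theorem pderiv_eval24 {m : ℕ} (s : Set (Fin m)) (c j : Fin m) (hj : j ∉ s)
    (p : Polynomial (MvPolynomial.supported k₀ s)) :
    pderiv j (p.eval₂ (MvPolynomial.supported k₀ s).val.toRingHom (X c)) =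
      p.derivative.eval₂ (MvPolynomial.supported k₀ s).val.toRingHom (X c) * pderiv j (X c) := by
  classical
  have hA : ∀ a : MvPolynomial.supported k₀ s, pderiv j (a : MvPolynomial (Fin m) k₀) = 0 := by
    intro a
    apply pderiv_eq_zero_of_notMem_vars
    intro h
    exact hj (MvPolynomial.mem_supported.mp a.2 h)
  have hval : ∀ a : MvPolynomial.supported k₀ s,
      (MvPolynomial.supported k₀ s).val.toRingHom a = (a : MvPolynomial (Fin m) k₀) := fun a => rfl
  induction p using Polynomial.induction_on' with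
  | add p q hp hq => rw [Polynomial.eval₂_add, map_add, hp, hq, Polynomial.derivative_add, Polynomial.eval₂_add, add_mul]
  | monomial n a =>
    rw [Polynomial.eval₂_monomial, Polynomial.derivative_monomial, Polynomial.eval₂_monomial, Derivation.leibniz, hval, hA a,
      smul_zero, add_zero, Derivation.leibniz_pow, map_mul, hval]
    simp only [smul_eq_mul, nsmul_eq_mul, map_natCast]
    ring

/-- an element which is algebraic over the algebra generated by the `ξ j`, `j ∈ s` -/
theorem exists_poly24 [CharZero k₀] {L : Type*} [CommRing L] [IsDomain L] [Algebra k₀ L] {m : ℕ} (ξ : Fin m → L) (s : Set (Fin m))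
    (c : Fin m) (hcs : c ∉ s) (hc : IsAlgebraic (Algebra.adjoin k₀ (ξ '' s)) (ξ c)) :
    ∃ P : MvPolynomial (Fin m) k₀, aeval ξ P = 0 ∧ aeval ξ (pderiv c P) ≠ 0 ∧ ∀ j, j ∉ s → j ≠ c → pderiv j P = 0 := by
  classical
  have hcz : CharZero L := charZero_of_injective_algebraMap (algebraMap k₀ L).injective
  set A := MvPolynomial.supported k₀ s with hAdef
  set φ : A →+* L := (aeval ξ : MvPolynomial (Fin m) k₀ →ₐ[k₀] L).toRingHom.comp A.val.toRingHom with hφ
  have hφ1 : ∀ a : A, φ a = aeval ξ (a : MvPolynomial (Fin m) k₀) := fun a => rfl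
  have hmap : A.map (aeval ξ : MvPolynomial (Fin m) k₀ →ₐ[k₀] L) = Algebra.adjoin k₀ (ξ '' s) := by
    rw [hAdef, MvPolynomial.supported, AlgHom.map_adjoin]
    congr 1
    ext y
    simp only [Set.mem_image, exists_exists_and_eq_and, aeval_X]
  have hmem : ∀ a : A, aeval ξ (a : MvPolynomial (Fin m) k₀) ∈ Algebra.adjoin k₀ (ξ '' s) := by
    intro a
    rw [← hmap]
    exact ⟨a, a.2, rfl⟩
  let ψ : A →+* Algebra.adjoin k₀ (ξ '' s) := φ.codRestrict (Algebra.adjoin k₀ (ξ '' s)).toSubring hmem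
  have hψ : Function.Surjective ψ := by
    rintro ⟨y, hy⟩
    rw [← hmap] at hy
    obtain ⟨a, ha, hay⟩ := hy
    exact ⟨⟨a, ha⟩, Subtype.ext hay⟩
  have hψφ : (algebraMap (Algebra.adjoin k₀ (ξ '' s)) L).comp ψ = φ := by
    ext a
    rfl
  -- a polynomial
  have hne : {p : Polynomial A | p.map φ ≠ 0 ∧ p.eval₂ φ (ξ c) = 0}.Nonempty := by
    obtain ⟨p, hp0, hp⟩ := hc
    obtain ⟨p', rfl⟩ := Polynomial.map_surjective ψ hψ p
    refine ⟨p', ?_, ?_⟩
    · rw [← hψφ, ← Polynomial.map_map]
      intro h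
      apply hp0
      exact (Polynomial.map_eq_zero_iff (Subtype.val_injective)).mp h
    · rw [Polynomial.aeval_def, Polynomial.eval₂_map, hψφ] at hp
      exact hp
  obtain ⟨p, ⟨hp0, hp⟩, hmin⟩ := (measure (Polynomial.natDegree (R := A))).wf.has_min _ hne
  have hdeg : (p.map φ).natDegree ≠ 0 := by
    intro h
    rw [Polynomial.natDegree_eq_zero] at h
    obtain ⟨a, ha⟩ := h
    rw [Polynomial.eval₂_eq_eval_map, ← ha, Polynomial.eval_C] at hp
    rw [← ha, hp, Polynomial.C_0] at hp0
    exact hp0 rfl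
  have hd : p.derivative.eval₂ φ (ξ c) ≠ 0 := by
    intro h
    refine hmin p.derivative ⟨?_, h⟩ ?_
    · rw [← Polynomial.derivative_map]
      intro h1
      exact hdeg (Polynomial.derivative_eq_zero.mp h1)
    · show p.derivative.natDegree < p.natDegree
      apply Polynomial.natDegree_derivative_lt
      intro h1
      apply hdeg
      have := Polynomial.natDegree_map_le (f := φ) (p := p)
      omega
  refine ⟨p.eval₂ A.val.toRingHom (X c), ?_, ?_, fun j hj hjc => ?_⟩
  · have h1 := Polynomial.hom_eval₂ p A.val.toRingHom (aeval ξ : MvPolynomial (Fin m) k₀ →ₐ[k₀] L).toRingHom (X c)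
    have h2 : (aeval ξ : MvPolynomial (Fin m) k₀ →ₐ[k₀] L).toRingHom (X c) = ξ c := aeval_X _ _
    rw [h2] at h1
    exact h1.trans hp
  · rw [pderiv_eval24 s c c hcs p, pderiv_X_self, mul_one]
    have h1 := Polynomial.hom_eval₂ p.derivative A.val.toRingHom (aeval ξ : MvPolynomial (Fin m) k₀ →ₐ[k₀] L).toRingHom (X c)
    have h2 : (aeval ξ : MvPolynomial (Fin m) k₀ →ₐ[k₀] L).toRingHom (X c) = ξ c := aeval_X _ _
    rw [h2] at h1
    intro h3
    exact hd (h1.symm.trans h3)
  · rw [pderiv_eval24 s c j hj p, pderiv_X_of_ne (Ne.symm hjc), mul_zero]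

variable {N : ℕ}

theorem grad_sum24 {K : Type*} [Field K] [Algebra k₀ K] {ι : Type*} (s : Finset ι) (f : ι → MvPolynomial (Fin (N + 1)) k₀)
    (x : Fin (N + 1) → K) : grad (∑ i ∈ s, f i) x = ∑ i ∈ s, grad (f i) x := by
  funext c
  simp only [grad, map_sum, Finset.sum_apply]

/-- the conormal space and the unit vectors of a transcendence basis -/
theorem span_top24 {L : Type*} [Field L] [Algebra k₀ L] (I : Ideal (MvPolynomial (Fin (N + 1)) k₀))
    (hhom : ∀ p ∈ I, ∀ m, homogeneousComponent m p ∈ I) (ξ : Fin (N + 1) → L) (s : Set (Fin (N + 1)))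
    (h : ∀ c, c ∉ s → ∃ P ∈ I, aeval ξ (pderiv c P) ≠ 0 ∧ ∀ j, j ∉ s → j ≠ c → pderiv j P = 0) :
    Submodule.span L {v | ∃ f ∈ I, ∃ e, f.IsHomogeneous e ∧ v = grad f ξ} ⊔
      Submodule.span L ((fun j => Pi.single (M := fun _ => L) j (1 : L)) '' s) = ⊤ := by
  classical
  set T := Submodule.span L {v | ∃ f ∈ I, ∃ e, f.IsHomogeneous e ∧ v = grad f ξ} ⊔
      Submodule.span L ((fun j => Pi.single (M := fun _ => L) j (1 : L)) '' s) with hT
  have hs : ∀ c ∈ s, Pi.single (M := fun _ => L) c (1 : L) ∈ T := fun c hc =>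
    Submodule.mem_sup_right (Submodule.subset_span ⟨c, hc, rfl⟩)
  have hsum : ∀ v : Fin (N + 1) → L, v = ∑ j, v j • Pi.single (M := fun _ => L) j (1 : L) := by
    intro v
    funext c
    simp [Finset.sum_apply, Pi.single_apply]
  have hall : ∀ c, Pi.single (M := fun _ => L) c (1 : L) ∈ T := by
    intro c
    by_cases hc : c ∈ s
    · exact hs c hc
    obtain ⟨P, hP, hPc, hPj⟩ := h c hc
    have h1 : grad P ξ ∈ T := by
      apply Submodule.mem_sup_left
      rw [← sum_homogeneousComponent P, grad_sum24]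
      refine Submodule.sum_mem _ fun m _ => Submodule.subset_span ?_
      exact ⟨_, hhom P hP m, m, homogeneousComponent_isHomogeneous m P, rfl⟩
    have h2 : grad P ξ = grad P ξ c • Pi.single (M := fun _ => L) c (1 : L) +
        ∑ j ∈ Finset.univ.erase c, grad P ξ j • Pi.single (M := fun _ => L) j (1 : L) := by
      rw [Finset.add_sum_erase Finset.univ (fun j => grad P ξ j • Pi.single (M := fun _ => L) j (1 : L)) (Finset.mem_univ c)]
      exact hsum _
    have h3 : ∑ j ∈ Finset.univ.erase c, grad P ξ j • Pi.single (M := fun _ => L) j (1 : L) ∈ T := by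
      refine Submodule.sum_mem _ fun j hj => ?_
      have hjc : j ≠ c := (Finset.mem_erase.mp hj).1
      by_cases hjs : j ∈ s
      · exact T.smul_mem _ (hs j hjs)
      · have h4 : grad P ξ j = 0 := by
          show aeval ξ (pderiv j P) = 0
          rw [hPj j hjs hjc, map_zero]
        rw [h4, zero_smul]
        exact T.zero_mem
    have h4 : grad P ξ c • Pi.single (M := fun _ => L) c (1 : L) ∈ T := by
      rw [eq_sub_of_add_eq h2.symm]
      exact T.sub_mem h1 h3
    have h5 := T.smul_mem (grad P ξ c)⁻¹ h4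
    rwa [smul_smul, inv_mul_cancel₀ (show grad P ξ c ≠ 0 from hPc), one_smul] at h5
  rw [eq_top_iff]
  intro v _
  rw [hsum v]
  exact Submodule.sum_mem _ fun j _ => T.smul_mem _ (hall j)

/-- a minor which is not zero -/
theorem exists_minor24 {K : Type*} [Field K] {n m : ℕ} (v : Fin n → Fin m → K) (h : LinearIndependent K v) :
    ∃ S : Fin n → Fin m, (Matrix.of fun i j => v i (S j)).det ≠ 0 := by
  classical
  have h1 : (Matrix.of v).rank = n := by
    have := LinearIndependent.rank_matrix (M := Matrix.of v) h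
    rwa [Fintype.card_fin] at this
  rw [Matrix.rank_eq_finrank_span_cols] at h1
  obtain ⟨f, hf, -, hli⟩ := Submodule.exists_fun_fin_finrank_span_eq K (Set.range (Matrix.of v).col)
  choose S hS using hf
  refine ⟨fun i => S (Fin.cast h1.symm i), ?_⟩
  have h2 : LinearIndependent K (Matrix.of fun i j => v i (S (Fin.cast h1.symm j))).col := by
    have h3 := hli.comp (Fin.cast h1.symm) (Fin.cast_injective _)
    have h4 : (Matrix.of fun i j => v i (S (Fin.cast h1.symm j))).col = f ∘ Fin.cast h1.symm := by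
      funext j
      rw [Function.comp_apply, ← hS]
      rfl
    rw [h4]
    exact h3
  rw [Matrix.linearIndependent_cols_iff_isUnit] at h2
  exact ((Matrix.isUnit_iff_isUnit_det _).mp h2).ne_zero

/-- the determinant of homogeneous polynomials -/
theorem det_hom24 {n : ℕ} (A : Matrix (Fin n) (Fin n) (MvPolynomial (Fin (N + 1)) k₀)) (d : Fin n → ℕ)
    (h : ∀ i j, (A i j).IsHomogeneous (d i)) : A.det.IsHomogeneous (∑ i, d i) := by
  classical
  rw [Matrix.det_apply]
  refine IsHomogeneous.sum _ _ _ fun σ _ => ?_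
  have h1 : (∏ i, A (σ i) i).IsHomogeneous (∑ i, d i) := by
    have h2 := IsHomogeneous.prod Finset.univ (fun i => A (σ i) i) (fun i => d (σ i)) (fun i _ => h (σ i) i)
    rwa [Equiv.sum_comp σ d] at h2
  rw [Units.smul_def, zsmul_eq_mul]
  have h3 : ((((Equiv.Perm.sign σ : ℤˣ) : ℤ) : MvPolynomial (Fin (N + 1)) k₀)).IsHomogeneous 0 := by
    have : ((((Equiv.Perm.sign σ : ℤˣ) : ℤ) : MvPolynomial (Fin (N + 1)) k₀)) = C (((Equiv.Perm.sign σ : ℤˣ) : ℤ) : k₀) := by
      simp
    rw [this]
    exact isHomogeneous_C _ _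
  simpa using h3.mul h1

/-- the gradients of homogeneous equations at a point where a minor does not vanish -/
theorem li_of_minor24 {K : Type*} [Field K] [Algebra k₀ K] {n : ℕ} (f : Fin n → MvPolynomial (Fin (N + 1)) k₀)
    (z : Fin (N + 1) → K) (S : Fin n → Fin (N + 1))
    (h : aeval z (Matrix.of fun i j => pderiv (S j) (f i)).det ≠ 0) : LinearIndependent K fun t => grad (f t) z := by
  classical
  have h1 : (Matrix.of fun i j => grad (f i) z (S j)).det ≠ 0 := by
    intro h2
    apply h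
    have h3 := (aeval z : MvPolynomial (Fin (N + 1)) k₀ →ₐ[k₀] K).map_det (Matrix.of fun i j => pderiv (S j) (f i))
    rw [h3]
    exact h2
  have h4 := Matrix.linearIndependent_rows_of_det_ne_zero h1
  refine LinearIndependent.of_comp (LinearMap.funLeft K K S) ?_
  exact h4

/-- `conormal`, from `generic` -/
theorem conormal24 [CharZero k₀] {I : Ideal (MvPolynomial (Fin (N + 1)) k₀)} (hX : Surf I)
    (hgen : ∀ (K : Type u) [Field K] [Algebra k₀ K] (z : Fin (N + 1) → K), (∃ j, z j = 1) → OnX I z →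
      2 ≤ Algebra.trdeg k₀ (IntermediateField.adjoin k₀ (Set.range z)) → ∀ (D : MvPolynomial (Fin (N + 1)) k₀) (e : ℕ),
      D.IsHomogeneous e → aeval z D = 0 → D ∈ I) :
    ∃ (n : ℕ) (_ : n + 2 = N) (f : Fin n → MvPolynomial (Fin (N + 1)) k₀) (e : Fin n → ℕ),
    (∀ t, f t ∈ I) ∧ (∀ t, (f t).IsHomogeneous (e t)) ∧
    ∀ (K : Type u) [Field K] [Algebra k₀ K] (z : Fin (N + 1) → K), (∃ j, z j = 1) → OnX I z →
      2 ≤ Algebra.trdeg k₀ (IntermediateField.adjoin k₀ (Set.range z)) → LinearIndependent K fun t => grad (f t) z := by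
  classical
  have hprime := hX.prime
  have hdom : IsDomain (MvPolynomial (Fin (N + 1)) k₀ ⧸ I) := Ideal.Quotient.isDomain I
  let R := MvPolynomial (Fin (N + 1)) k₀ ⧸ I
  let L := FractionRing R
  let ξ' : Fin (N + 1) → R := fun j => Ideal.Quotient.mk I (X j)
  have hξ' : ∀ f : MvPolynomial (Fin (N + 1)) k₀, aeval ξ' f = Ideal.Quotient.mk I f := by
    intro f
    have h1 : (aeval ξ' : MvPolynomial (Fin (N + 1)) k₀ →ₐ[k₀] R) = Ideal.Quotient.mkₐ k₀ I := by
      apply MvPolynomial.algHom_ext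
      intro j
      rw [aeval_X]
      rfl
    rw [h1]
    rfl
  let ξ : Fin (N + 1) → L := fun j => algebraMap R L (ξ' j)
  have hξ : ∀ f : MvPolynomial (Fin (N + 1)) k₀, aeval ξ f = algebraMap R L (aeval ξ' f) := fun f =>
    MvPolynomial.aeval_algebraMap_apply L ξ' f
  have hinj : Function.Injective (algebraMap R L) := IsFractionRing.injective R L
  have hI : ∀ f : MvPolynomial (Fin (N + 1)) k₀, aeval ξ f = 0 → f ∈ I := by
    intro f hf
    rw [hξ, hξ'] at hf
    exact Ideal.Quotient.eq_zero_iff_mem.mp (hinj (hf.trans (map_zero _).symm))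
  -- a transcendence basis among the coordinates
  have htop : Algebra.adjoin k₀ (Set.range ξ') = ⊤ := by
    rw [Algebra.adjoin_range_eq_range_aeval]
    rw [eq_top_iff]
    intro y _
    obtain ⟨f, rfl⟩ := Ideal.Quotient.mk_surjective y
    exact ⟨f, hξ' f⟩
  have halg : Algebra.IsAlgebraic (Algebra.adjoin k₀ (Set.range ξ')) R := by
    refine ⟨fun y => ?_⟩
    have hy : y ∈ Algebra.adjoin k₀ (Set.range ξ') := by
      rw [htop]
      trivial
    exact isAlgebraic_algebraMap (⟨y, hy⟩ : Algebra.adjoin k₀ (Set.range ξ'))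
  obtain ⟨t, hts, ht⟩ := exists_isTranscendenceBasis_subset (R := k₀) (A := R) (Set.range ξ')
  have hcard : Cardinal.mk t = 3 := by
    rw [ht.cardinalMk_eq_trdeg]
    exact hX.tr
  have hequiv : Nonempty (t ≃ Fin 3) := by
    have h1 : Cardinal.mk t = Cardinal.mk (ULift.{u} (Fin 3)) := by
      rw [hcard]
      simp
    obtain ⟨e⟩ := Cardinal.eq.mp h1
    exact ⟨e.trans Equiv.ulift⟩
  obtain ⟨e⟩ := hequiv
  have hg0 : ∀ i : Fin 3, ∃ j, ξ' j = (e.symm i : R) := fun i => hts (e.symm i).2
  choose g hg using hg0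
  have hginj : Function.Injective g := by
    intro i j hij
    apply e.symm.injective
    apply Subtype.ext
    rw [← hg i, ← hg j, hij]
  have himg : ξ' '' Set.range g = Set.range (Subtype.val : t → R) := by
    ext y
    constructor
    · rintro ⟨_, ⟨i, rfl⟩, rfl⟩
      exact ⟨e.symm i, (hg i).symm⟩
    · rintro ⟨y, rfl⟩
      exact ⟨g (e y), ⟨e y, rfl⟩, by rw [hg, Equiv.symm_apply_apply]⟩
  have hN : 3 ≤ N + 1 := by
    have := Fintype.card_le_of_injective g hginj
    simpa using this
  have hP : ∀ c, c ∉ Set.range g → ∃ P ∈ I, aeval ξ (pderiv c P) ≠ 0 ∧ ∀ j, j ∉ Set.range g → j ≠ c → pderiv j P = 0 := by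
    intro c hc
    have h1 : IsAlgebraic (Algebra.adjoin k₀ (ξ' '' Set.range g)) (ξ' c) := by
      rw [himg]
      exact ht.isAlgebraic.isAlgebraic _
    obtain ⟨P, hP0, hP1, hP2⟩ := exists_poly24 ξ' (Set.range g) c hc h1
    refine ⟨P, ?_, ?_, hP2⟩
    · rw [hξ'] at hP0
      exact Ideal.Quotient.eq_zero_iff_mem.mp hP0
    · rw [hξ]
      intro h2
      exact hP1 (hinj (h2.trans (map_zero _).symm))
  have hspan := span_top24 I hX.hom ξ (Set.range g) hP
  set Sg := {v | ∃ f ∈ I, ∃ e, f.IsHomogeneous e ∧ v = grad f ξ} with hSg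
  have hfin : N + 1 ≤ finrank L (Submodule.span L Sg) + 3 := by
    have h1 := Submodule.finrank_add_le_finrank_add_finrank (Submodule.span L Sg)
      (Submodule.span L ((fun j => Pi.single (M := fun _ => L) j (1 : L)) '' Set.range g))
    rw [hspan, finrank_top, Module.finrank_fin_fun] at h1
    have h2 : finrank L (Submodule.span L ((fun j => Pi.single (M := fun _ => L) j (1 : L)) '' Set.range g)) ≤ 3 := by
      rw [← Set.range_comp]
      have := finrank_range_le_card (R := L) ((fun j => Pi.single (M := fun _ => L) j (1 : L)) ∘ g)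
      rwa [Fintype.card_fin] at this
    omega
  obtain ⟨F, hF, -, hFli⟩ := Submodule.exists_fun_fin_finrank_span_eq L Sg
  obtain ⟨n, hn⟩ : ∃ n, n + 2 = N := ⟨N - 2, by omega⟩
  have hnle : n ≤ finrank L (Submodule.span L Sg) := by omega
  have hF' : ∀ i : Fin n, ∃ f ∈ I, ∃ e, f.IsHomogeneous e ∧ F (Fin.castLE hnle i) = grad f ξ := fun i => hF _
  choose f hfI d hfd hfF using hF'
  have hli : LinearIndependent L fun i => grad (f i) ξ := by
    have h1 := hFli.comp (Fin.castLE hnle) (Fin.castLE_injective hnle)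
    have h2 : (fun i => grad (f i) ξ) = F ∘ Fin.castLE hnle := by
      funext i
      exact (hfF i).symm
    rw [h2]
    exact h1
  obtain ⟨S, hS⟩ := exists_minor24 _ hli
  have hD : (Matrix.of fun i j => pderiv (S j) (f i)).det ∉ I := by
    intro h1
    apply hS
    have h2 : aeval ξ (Matrix.of fun i j => pderiv (S j) (f i)).det = 0 := by
      rw [hξ, hξ', Ideal.Quotient.eq_zero_iff_mem.mpr h1, map_zero]
    have h3 := (aeval ξ : MvPolynomial (Fin (N + 1)) k₀ →ₐ[k₀] L).map_det (Matrix.of fun i j => pderiv (S j) (f i))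
    rw [h3] at h2
    exact h2
  refine ⟨n, hn, f, d, hfI, hfd, fun K _ _ z h1 hz htr => li_of_minor24 f z S fun h0 => hD ?_⟩
  exact hgen K z h1 hz htr _ _ (det_hom24 _ (fun i => d i - 1) fun i j => (hfd i).pderiv) h0

end

section

variable {k₀ : Type u} [Field k₀] [CharZero k₀] {N : ℕ} {I : Ideal (MvPolynomial (Fin (N + 1)) k₀)}

theorem conormal (hX : Surf I) : ∃ (n : ℕ) (_ : n + 2 = N) (f : Fin n → MvPolynomial (Fin (N + 1)) k₀) (e : Fin n → ℕ),
    (∀ t, f t ∈ I) ∧ (∀ t, (f t).IsHomogeneous (e t)) ∧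
    ∀ (K : Type u) [Field K] [Algebra k₀ K] (z : Fin (N + 1) → K), (∃ j, z j = 1) → OnX I z →
      2 ≤ Algebra.trdeg k₀ (IntermediateField.adjoin k₀ (Set.range z)) → LinearIndependent K fun t => grad (f t) z :=
  conormal24 hX fun _ _ _ z h1 hz ht D e hD h0 => generic hX z h1 hz ht D e hD h0

end

end Pool.Agent.TRI
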