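import Pool.Agent.Helper6.TRI.GDefs

/-!
# TRI, second version, block S7: membership in `I K[X]` in degree `e` is given by linear equations over `k₀`
-/

set_option autoImplicit false

namespace Pool.Agent.TRI

open Module MvPolynomial

universe u

theorem memI {k₀ : Type u} [Field k₀] {N : ℕ} {I : Ideal (MvPolynomial (Fin (N + 1)) k₀)}
    (hI : ∀ p ∈ I, ∀ m, homogeneousComponent m p ∈ I) (e : ℕ) :
    ∃ (t : ℕ) (L : Fin t → (Fin (N + 1) →₀ ℕ) → k₀), ∀ (K : Type u) [Field K] [Algebra k₀ K] (G : MvPolynomial (Fin (N + 1)) K),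
      G.IsHomogeneous e → (G ∈ I.map (MvPolynomial.map (algebraMap k₀ K)) ↔
        ∀ i, ∑ m ∈ Finset.finsuppAntidiag (Finset.univ : Finset (Fin (N + 1))) e, algebraMap k₀ K (L i m) * coeff m G = 0) := by
  classical
  set S := Finset.finsuppAntidiag (Finset.univ : Finset (Fin (N + 1))) e with hSdef
  have hS : ∀ m : Fin (N + 1) →₀ ℕ, m ∈ S ↔ m.degree = e := by
    intro m
    rw [hSdef, Finset.mem_finsuppAntidiag, Finsupp.degree_eq_sum]
    simp
  let W : Submodule k₀ (MvPolynomial (Fin (N + 1)) k₀) := I.restrictScalars k₀ ⊓ homogeneousSubmodule (Fin (N + 1)) k₀ e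
  obtain ⟨W', hW⟩ := Submodule.exists_isCompl W
  obtain ⟨π, hπ1, hπ2⟩ : ∃ π : MvPolynomial (Fin (N + 1)) k₀ →ₗ[k₀] MvPolynomial (Fin (N + 1)) k₀,
      (∀ f, π f ∈ W) ∧ ∀ f ∈ W, π f = f := by
    refine ⟨W.subtype ∘ₗ W.projectionOnto W' hW, fun f => ?_, fun f hf => ?_⟩
    · exact (W.projectionOnto W' hW f).2
    · exact congrArg Subtype.val (Submodule.projectionOnto_apply_left hW ⟨f, hf⟩)
  let δ : (Fin (N + 1) →₀ ℕ) → MvPolynomial (Fin (N + 1)) k₀ := fun m => monomial m 1 - π (monomial m 1)
  -- the sum over the monomials of degree `e`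
  have hcomp : ∀ f : MvPolynomial (Fin (N + 1)) k₀, ∑ m ∈ S, coeff m f • monomial m (1 : k₀) = homogeneousComponent e f := by
    intro f
    ext m'
    rw [coeff_sum, coeff_homogeneousComponent]
    simp only [coeff_smul, coeff_monomial, smul_eq_mul, mul_ite, mul_one, mul_zero]
    rw [Finset.sum_ite_eq' S m' fun m => coeff m f]
    simp only [hS]
  have hδ : ∀ f ∈ I, ∑ m ∈ S, coeff m f • δ m = 0 := by
    intro f hf
    have h1 : ∑ m ∈ S, coeff m f • δ m = homogeneousComponent e f - π (homogeneousComponent e f) := by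
      rw [← hcomp, map_sum, ← Finset.sum_sub_distrib]
      refine Finset.sum_congr rfl fun m _ => ?_
      rw [map_smul, smul_sub]
    rw [h1, hπ2 _ ⟨hI f hf e, homogeneousComponent_isHomogeneous e f⟩, sub_self]
  refine ⟨S.card, fun i m => coeff (S.equivFin.symm i : Fin (N + 1) →₀ ℕ) (δ m), fun K _ _ G hG => ⟨fun hGI i => ?_, fun h => ?_⟩⟩
  · let m' : Fin (N + 1) →₀ ℕ := (S.equivFin.symm i).1
    -- the linear form
    let Λ : MvPolynomial (Fin (N + 1)) K →+ K :=
      { toFun := fun G => ∑ m ∈ S, algebraMap k₀ K (coeff m' (δ m)) * coeff m G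
        map_zero' := by simp
        map_add' := fun G G' => by
          rw [← Finset.sum_add_distrib]
          exact Finset.sum_congr rfl fun m _ => by rw [coeff_add, mul_add] }
    have hΛ : ∀ G, Λ G = ∑ m ∈ S, algebraMap k₀ K (coeff m' (δ m)) * coeff m G := fun G => rfl
    have hΛI : ∀ f ∈ I, ∀ c : K, Λ (C c * MvPolynomial.map (algebraMap k₀ K) f) = 0 := by
      intro f hf c
      have h1 := congrArg (coeff m') (hδ f hf)
      rw [coeff_sum, coeff_zero] at h1
      have h2 := congrArg (algebraMap k₀ K) h1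
      rw [map_sum, map_zero] at h2
      have h3 : Λ (C c * MvPolynomial.map (algebraMap k₀ K) f) = c * ∑ m ∈ S, algebraMap k₀ K (coeff m' (coeff m f • δ m)) := by
        rw [hΛ, Finset.mul_sum]
        refine Finset.sum_congr rfl fun m _ => ?_
        rw [coeff_C_mul, coeff_map, coeff_smul, smul_eq_mul, map_mul]
        ring
      rw [h3, h2, mul_zero]
    have key : ∀ G ∈ I.map (MvPolynomial.map (algebraMap k₀ K)), ∀ a : MvPolynomial (Fin (N + 1)) K, Λ (a * G) = 0 := by
      intro G hG
      refine Submodule.span_induction (p := fun G _ => ∀ a : MvPolynomial (Fin (N + 1)) K, Λ (a * G) = 0) ?_ ?_ ?_ ?_ hG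
      · rintro _ ⟨f, hf, rfl⟩ a
        induction a using MvPolynomial.induction_on' with
        | monomial m c =>
          have h1 : monomial m c * MvPolynomial.map (algebraMap k₀ K) f =
              C c * MvPolynomial.map (algebraMap k₀ K) (monomial m 1 * f) := by
            rw [map_mul, map_monomial, map_one, ← mul_assoc, C_mul_monomial, mul_one]
          rw [h1]
          exact hΛI _ (I.mul_mem_left _ hf) c
        | add p q hp hq => rw [add_mul, map_add, hp, hq, add_zero]
      · intro a
        rw [mul_zero, map_zero]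
      · intro x y _ _ hx hy a
        rw [mul_add, map_add, hx, hy, add_zero]
      · intro b x _ hx a
        rw [smul_eq_mul, ← mul_assoc]
        exact hx _
    have := key G hGI 1
    rw [one_mul] at this
    exact this
  · have h1 : G = ∑ m ∈ S, C (coeff m G) * MvPolynomial.map (algebraMap k₀ K) (π (monomial m 1)) := by
      ext m'
      rw [coeff_sum]
      simp only [coeff_C_mul, coeff_map]
      by_cases hm' : m' ∈ S
      · have h2 := h (S.equivFin ⟨m', hm'⟩)
        simp only [Equiv.symm_apply_apply] at h2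
        have h3 : ∀ m ∈ S, algebraMap k₀ K (coeff m' (δ m)) * coeff m G =
            (if m = m' then coeff m G else 0) - coeff m G * algebraMap k₀ K (coeff m' (π (monomial m 1))) := by
          intro m _
          show algebraMap k₀ K (coeff m' (monomial m 1 - π (monomial m 1))) * coeff m G = _
          rw [coeff_sub, coeff_monomial, map_sub]
          split_ifs <;> simp <;> ring
        rw [Finset.sum_congr rfl h3, Finset.sum_sub_distrib, Finset.sum_ite_eq' S m' fun m => coeff m G, if_pos hm'] at h2
        exact sub_eq_zero.mp h2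
      · have hm2 : m'.degree ≠ e := fun h4 => hm' ((hS m').mpr h4)
        rw [hG.coeff_eq_zero hm2]
        refine (Finset.sum_eq_zero fun m _ => ?_).symm
        have h5 : (π (monomial m 1)).IsHomogeneous e := (hπ1 _).2
        rw [h5.coeff_eq_zero hm2, map_zero, mul_zero]
    rw [h1]
    refine Ideal.sum_mem _ fun m _ => Ideal.mul_mem_left _ _ ?_
    exact Ideal.mem_map_of_mem _ (hπ1 _).1

end Pool.Agent.TRI
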